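import Pool.Agent.N283.PN.JPcore
import Pool.Agent.Y381.SN.AF4
import Pool.Agent.H988R6.Up

/-!
Project PN, two pivotal edges.
-/

set_option autoImplicit false

namespace Pool.Agent.N283.PN.JP

open Pool.Agent.N931.PN

theorem main : S_PAR → S_JP :=
  core (by
    obtain ⟨_, C, _, hC, h⟩ := Pool.Agent.H988R6.a4_sharp
    exact ⟨C, hC, fun k hk => (h k hk).2⟩) Pool.Agent.Y554.SN.A4a_sharp

end Pool.Agent.N283.PN.JP
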