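import Pool.Agent.N931.PN.Stm5

/-!
Project PN, two pivotal edges: the core, with the two arm exponents as hypotheses.
-/

set_option autoImplicit false

namespace Pool.Agent.N283.PN.JP

open H974 H12S H389NS H984N H984P H342P Finset
open Pool.Agent.N931.PN Pool.Agent.N116.EW

/-! ### discrete derivatives -/

section dif
variable {E : Type*} [DecidableEq E]

theorem dd_comm {e e' : E} (h : e' ≠ e) (f : Finset E → ℝ) (F : Finset E) :
    dif e' (dif e f) F = dif e (dif e' f) F := by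
  unfold dif
  have h1 : insert e (insert e' F) = insert e' (insert e F) := Finset.insert_comm _ _ _
  have h2 : (insert e' F).erase e = insert e' (F.erase e) := Finset.erase_insert_of_ne h
  have h3 : insert e (F.erase e') = (insert e F).erase e' :=
    (Finset.erase_insert_of_ne (Ne.symm h)).symm
  have h4 : (F.erase e').erase e = (F.erase e).erase e' := Finset.erase_right_comm
  rw [h1, h2, h3, h4]
  ring

theorem dd_ne {e e' : E} {f : Finset E → ℝ} {F : Finset E} (h : dif e' (dif e f) F ≠ 0) :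
    dif e f (insert e' F) ≠ 0 ∨ dif e f (F.erase e') ≠ 0 := by
  by_contra hc
  push Not at hc
  apply h
  show dif e f (insert e' F) - dif e f (F.erase e') = 0
  rw [hc.1, hc.2, sub_zero]

theorem dd_abs (e e' : E) (A : Finset E → Prop) (F : Finset E) :
    |dif e' (dif e (fun G => ind (A G))) F| ≤ 2 := by
  unfold dif
  have h : ∀ G, 0 ≤ ind (A G) ∧ ind (A G) ≤ 1 := fun G => ⟨ind_nonneg _, ind_le_one _⟩
  have a1 := h (insert e (insert e' F))
  have a2 := h ((insert e' F).erase e)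
  have a3 := h (insert e (F.erase e'))
  have a4 := h ((F.erase e').erase e)
  rw [abs_le]
  constructor <;> linarith [a1.1, a1.2, a2.1, a2.2, a3.1, a3.2, a4.1, a4.2]

theorem dif_lin (e : E) (c : ℝ) (S : Finset ℤ) (f : ℤ → Finset E → ℝ) :
    dif e (fun F => c * ∑ m ∈ S, f m F) = fun F => c * ∑ m ∈ S, dif e (f m) F := by
  funext F
  unfold dif
  rw [Finset.sum_sub_distrib]
  ring

end dif

/-! ### geometry -/

theorem A4a_local {c : ℤ × ℤ} {d k : ℕ} {F G : Set Edg}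
    (h : F ∩ ↑(blk c k \ blk c d) = G ∩ ↑(blk c k \ blk c d)) : A4a c d k F ↔ A4a c d k G := by
  unfold A4a
  rw [h]

theorem insert_inter {e : Edg} {F B : Finset Edg} (h : e ∉ B) :
    ((↑(insert e F) : Set Edg) ∩ ↑B) = (↑F : Set Edg) ∩ ↑B := by
  ext x
  simp only [Finset.coe_insert, Set.mem_inter_iff, Set.mem_insert_iff, Finset.mem_coe]
  constructor
  · rintro ⟨rfl | h1, h2⟩
    · exact absurd h2 h
    · exact ⟨h1, h2⟩
  · rintro ⟨h1, h2⟩
    exact ⟨Or.inr h1, h2⟩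

theorem erase_inter {e : Edg} {F B : Finset Edg} (h : e ∉ B) :
    ((↑(F.erase e) : Set Edg) ∩ ↑B) = (↑F : Set Edg) ∩ ↑B := by
  ext x
  simp only [Finset.coe_erase, Set.mem_inter_iff, Set.mem_sdiff, Set.mem_singleton_iff,
    Finset.mem_coe]
  constructor
  · rintro ⟨⟨h1, _⟩, h2⟩
    exact ⟨h1, h2⟩
  · rintro ⟨h1, h2⟩
    exact ⟨⟨h1, fun hx => h (hx ▸ h2)⟩, h2⟩

theorem blk_mono' (c : ℤ × ℤ) {a b : ℕ} (h : a ≤ b) : blk c a ⊆ blk c b :=
  RE_subset (by omega) (by omega) (by omega) (by omega)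

theorem sd_nonneg' (u v : Vtx) : 0 ≤ sd u v := (abs_nonneg _).trans (le_max_left _ _)

theorem src_ebx {e g : Edg} {k : ℕ} (h : g ∈ ebx e k) :
    |g.1 - e.1| ≤ k ∧ |g.2.1 - e.2.1| ≤ k := by
  unfold ebx at h
  obtain ⟨x, y, _ | _⟩ := g
  · rw [mem_RE_false] at h
    exact ⟨abs_le.2 ⟨by simp only; omega, by simp only; omega⟩,
      abs_le.2 ⟨by simp only; omega, by simp only; omega⟩⟩
  · rw [mem_RE_true] at h
    exact ⟨abs_le.2 ⟨by simp only; omega, by simp only; omega⟩,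
      abs_le.2 ⟨by simp only; omega, by simp only; omega⟩⟩

theorem sd_le_iff {u v : Vtx} {a : ℤ} : sd u v ≤ a ↔ |u.1 - v.1| ≤ a ∧ |u.2 - v.2| ≤ a :=
  max_le_iff

/-- the events for one column -/
theorem transfer {F G : Finset Edg} {e' : Edg} (hG : G = insert e' F ∨ G = F.erase e')
    {B : Finset Edg} (h : e' ∉ B) : ((↑G : Set Edg) ∩ ↑B) = (↑F : Set Edg) ∩ ↑B := by
  rcases hG with rfl | rfl
  · exact insert_inter h
  · exact erase_inter h

/-- one column: the value of the second derivative -/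
theorem column (hPAR : S_PAR) {C4 CA : ℝ} (hC4 : 0 < C4) (hCA : 0 < CA)
    (h4 : ∀ k : ℕ, 1 ≤ k → a4 (1/2) k ≤ C4 * (k:ℝ) ^ (-(5/4) : ℝ))
    (hA : ∀ (c0 : ℤ × ℤ) (d k : ℕ), 1 ≤ d → d ≤ k → ∀ S : Finset Edg, blk c0 k ⊆ S →
      PQ (1/2) S (fun F => A4a c0 d k ↑F) ≤ CA * ((d:ℝ) / k) ^ (5 / 4 : ℝ))
    (D : Dm) (hD : D.Ok) (m : ℤ) (hm1 : max D.t 0 < m) (hm2 : m ≤ D.r) (e e' : Edg)
    (hne : e' ≠ e) (s k : ℕ) (hs : (s : ℤ) = sd (src e') (src e)) (hsk : 2 * s ≤ k) (hk16 : 16 ≤ k)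
    (hbd : (k : ℤ) + s + 4 ≤ D.bd (src e)) (hem : (src e).1 + k + s + 4 ≤ m) :
    Ex hp D.edges (fun F => |dif e' (dif e (fun G => ind (KM D m G))) F|) ≤
      2 * (max (C4 ^ 2 * CA * (8 : ℝ) ^ (5/2 : ℝ) * 2 ^ (5/4 : ℝ) * 2 ^ (5/4 : ℝ))
        (CA * 16 ^ (5/4 : ℝ) * 16 ^ (5/4 : ℝ)) *
        (((s : ℝ) + 1) ^ (-(5/4) : ℝ) * (k : ℝ) ^ (-(5/4) : ℝ))) := by
  have hok : Ok (hp : Edg → ℝ) := fun _ => ⟨by unfold hp; norm_num, by unfold hp; norm_num⟩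
  have hk0 : (0 : ℝ) < k := by
    have : 0 < k := by omega
    exact_mod_cast this
  obtain ⟨hs1, hs2⟩ := sd_le_iff.1 hs.ge
  simp only [src] at hs1 hs2
  have hs1' := abs_le.1 hs1
  have hs2' := abs_le.1 hs2
  have hbd' : (k : ℤ) + s + 4 ≤ e.1 - D.l ∧ (k : ℤ) + s + 4 ≤ D.r - e.1 ∧
      (k : ℤ) + s + 4 ≤ e.2.1 ∧ (k : ℤ) + s + 4 ≤ D.h - e.2.1 := by
    have := hbd
    unfold Dm.bd at this
    simp only [src, le_min_iff] at this
    tauto
  have hem' : e.1 + k + s + 4 ≤ m := by simpa [src] using hem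
  -- the edges are edges of the domain
  have hblk : blk (src e) k ⊆ D.edges := by
    unfold blk Dm.edges
    apply RE_subset <;> simp only [src] <;> omega
  have hebx : ∀ j : ℕ, j ≤ k → ebx e j ⊆ blk (src e) k := fun j hj =>
    ebx_sub (by simp only [src, sub_self, abs_zero]; omega)
      (by simp only [src, sub_self, abs_zero]; omega)
  have heU : e ∈ D.edges := hblk (hebx 1 (by omega) (mem_ebx le_rfl))
  have hebx' : ∀ j t : ℕ, s + j ≤ t → ebx e' j ⊆ blk (src e) t := fun j t hj =>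
    ebx_sub (by simp only [src]; omega) (by simp only [src]; omega)
  have he'U : e' ∈ D.edges := hblk (by
    by_cases h16 : s + 1 ≤ k
    · exact hebx' 1 k h16 (mem_ebx le_rfl)
    · exfalso; omega)
  have hbd2 : ∀ j : ℕ, j ≤ k → (j : ℤ) + 4 ≤ D.bd (src e') := by
    intro j hj
    unfold Dm.bd
    simp only [src, le_min_iff]
    omega
  -- consequences of a nonzero second derivative
  have hE : ∀ F : Finset Edg, F ⊆ D.edges →
      dif e' (dif e (fun G => ind (KM D m G))) F ≠ 0 → ∃ G : Finset Edg,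
      (G = insert e' F ∨ G = F.erase e') ∧ ∀ j : ℕ, 1 ≤ j → j ≤ k →
        A4e j e (↑G : Set Edg) ∧ ∀ d : ℕ, 1 ≤ d → d ≤ j → A4a (src e) d j (↑G : Set Edg) := by
    intro F hF hnz
    rcases dd_ne hnz with h | h
    · refine ⟨insert e' F, Or.inl rfl, fun j hj1 hj2 => ?_⟩
      exact hPAR D hD m hm1 hm2 _ (Finset.insert_subset he'U hF) e heU h j hj1
        (by omega) (by simp only [src]; omega)
    · refine ⟨F.erase e', Or.inr rfl, fun j hj1 hj2 => ?_⟩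
      exact hPAR D hD m hm1 hm2 _ ((Finset.erase_subset _ _).trans hF) e heU h j hj1
        (by omega) (by simp only [src]; omega)
  have hE' : ∀ F : Finset Edg, F ⊆ D.edges →
      dif e' (dif e (fun G => ind (KM D m G))) F ≠ 0 → ∃ G : Finset Edg,
      (G = insert e F ∨ G = F.erase e) ∧ ∀ j : ℕ, 1 ≤ j → j ≤ k →
        A4e j e' (↑G : Set Edg) := by
    intro F hF hnz
    rw [dd_comm hne] at hnz
    rcases dd_ne hnz with h | h
    · refine ⟨insert e F, Or.inl rfl, fun j hj1 hj2 => ?_⟩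
      exact (hPAR D hD m hm1 hm2 _ (Finset.insert_subset heU hF) e' he'U h j hj1
        (hbd2 j hj2) (by simp only [src]; omega)).1
    · refine ⟨F.erase e, Or.inr rfl, fun j hj1 hj2 => ?_⟩
      exact (hPAR D hD m hm1 hm2 _ ((Finset.erase_subset _ _).trans hF) e' he'U h j hj1
        (hbd2 j hj2) (by simp only [src]; omega)).1
  -- from an event to the expectation
  have hred : ∀ Bv : Finset Edg → Prop, (∀ F : Finset Edg, F ⊆ D.edges →
      dif e' (dif e (fun G => ind (KM D m G))) F ≠ 0 → Bv F) →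
      Ex hp D.edges (fun F => |dif e' (dif e (fun G => ind (KM D m G))) F|) ≤
        2 * Pr hp D.edges Bv := by
    intro Bv hB
    unfold Pr
    rw [← Ex_mul_left]
    refine Ex_mono hok fun F hF => ?_
    by_cases hz : dif e' (dif e (fun G => ind (KM D m G))) F = 0
    · rw [hz, abs_zero]
      have := ind_nonneg (Bv F)
      linarith
    · rw [ind_of (hB F hF hz), mul_one]
      exact dd_abs _ _ _ _
  have hs0 : (0 : ℝ) < (s : ℝ) + 1 := by positivity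
  have hX : 0 ≤ ((s : ℝ) + 1) ^ (-(5/4) : ℝ) * (k : ℝ) ^ (-(5/4) : ℝ) := by positivity
  by_cases h16 : s < 16
  · -- one annulus
    refine (hred (fun F => A4a (src e) 16 k (↑F : Set Edg)) ?_).trans ?_
    · intro F hF hnz
      obtain ⟨G, hG, hj⟩ := hE F hF hnz
      have h1 := (hj k (by omega) le_rfl).2 16 (by norm_num) hk16
      have h2 : e' ∉ blk (src e) k \ blk (src e) 16 := by
        rw [Finset.mem_sdiff, not_and_not_right]
        intro _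
        exact hebx' 1 16 (by omega) (mem_ebx le_rfl)
      exact (A4a_local (transfer hG h2)).1 h1
    · have h1 := hA (src e) 16 k (by norm_num) hk16 D.edges hblk
      have h2 : (((16 : ℕ) : ℝ) / k) ^ (5/4 : ℝ) = 16 ^ (5/4 : ℝ) * (k : ℝ) ^ (-(5/4) : ℝ) := by
        rw [Real.div_rpow (by positivity) hk0.le, Real.rpow_neg hk0.le, div_eq_mul_inv]
        norm_num
      have h3 : 1 ≤ 16 ^ (5/4 : ℝ) * ((s : ℝ) + 1) ^ (-(5/4) : ℝ) := by
        have h4 : (s : ℝ) + 1 ≤ 16 := by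
          have : s + 1 ≤ 16 := by omega
          exact_mod_cast this
        have h5 : (16 : ℝ) ^ (-(5/4) : ℝ) ≤ ((s : ℝ) + 1) ^ (-(5/4) : ℝ) :=
          Real.rpow_le_rpow_of_nonpos hs0 h4 (by norm_num)
        have h6 : (16 : ℝ) ^ (5/4 : ℝ) * (16 : ℝ) ^ (-(5/4) : ℝ) = 1 := by
          rw [← Real.rpow_add (by norm_num)]
          norm_num
        calc (1 : ℝ) = (16 : ℝ) ^ (5/4 : ℝ) * (16 : ℝ) ^ (-(5/4) : ℝ) := h6.symm
          _ ≤ _ := mul_le_mul_of_nonneg_left h5 (by positivity)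
      have h4' : Pr hp D.edges (fun F => A4a (src e) 16 k (↑F : Set Edg)) ≤
          CA * (16 ^ (5/4 : ℝ) * (k : ℝ) ^ (-(5/4) : ℝ)) := by
        rw [← h2]
        exact h1
      have h5 : CA * (16 ^ (5/4 : ℝ) * (k : ℝ) ^ (-(5/4) : ℝ)) ≤
          (CA * 16 ^ (5/4 : ℝ) * 16 ^ (5/4 : ℝ)) *
            (((s : ℝ) + 1) ^ (-(5/4) : ℝ) * (k : ℝ) ^ (-(5/4) : ℝ)) := by
        have h6 : 0 ≤ CA * (16 ^ (5/4 : ℝ) * (k : ℝ) ^ (-(5/4) : ℝ)) := by positivity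
        calc CA * (16 ^ (5/4 : ℝ) * (k : ℝ) ^ (-(5/4) : ℝ))
            = CA * (16 ^ (5/4 : ℝ) * (k : ℝ) ^ (-(5/4) : ℝ)) * 1 := by ring
          _ ≤ CA * (16 ^ (5/4 : ℝ) * (k : ℝ) ^ (-(5/4) : ℝ)) *
              (16 ^ (5/4 : ℝ) * ((s : ℝ) + 1) ^ (-(5/4) : ℝ)) :=
              mul_le_mul_of_nonneg_left h3 h6
          _ = _ := by ring
      have h7 := mul_le_mul_of_nonneg_right (le_max_right
        (C4 ^ 2 * CA * (8 : ℝ) ^ (5/2 : ℝ) * 2 ^ (5/4 : ℝ) * 2 ^ (5/4 : ℝ))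
        (CA * 16 ^ (5/4 : ℝ) * 16 ^ (5/4 : ℝ))) hX
      linarith
  · -- two boxes and an annulus
    push Not at h16
    obtain ⟨j, hj⟩ : ∃ j : ℕ, j = s / 4 := ⟨_, rfl⟩
    have hj1 : 1 ≤ j := by omega
    have hjk : j ≤ k := by omega
    have hjs : 4 * j ≤ s := by omega
    have hsj : s ≤ 8 * j := by omega
    have hsp : (0 : ℝ) < s := by
      have : 0 < s := by omega
      exact_mod_cast this
    have n1 : e' ∉ ebx e j := by
      intro h
      obtain ⟨h1, h2⟩ := src_ebx h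
      have : sd (src e') (src e) ≤ j := sd_le_iff.2 ⟨h1, h2⟩
      omega
    have n2 : e ∉ ebx e' j := by
      intro h
      obtain ⟨h1, h2⟩ := src_ebx h
      have : sd (src e') (src e) ≤ j := sd_le_iff.2
        ⟨by rw [abs_sub_comm]; exact h1, by rw [abs_sub_comm]; exact h2⟩
      omega
    have s1 : ebx e j ⊆ blk (src e) (2 * s) := ebx_sub
      (by simp only [src, sub_self, abs_zero]; omega)
      (by simp only [src, sub_self, abs_zero]; omega)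
    have s2 : ebx e' j ⊆ blk (src e) (2 * s) := hebx' j (2 * s) (by omega)
    have n3 : e' ∉ blk (src e) k \ blk (src e) (2 * s) := by
      rw [Finset.mem_sdiff, not_and_not_right]
      intro _
      exact s2 (mem_ebx hj1)
    have d1 : Disjoint (ebx e j) (ebx e' j) := by
      rw [Finset.disjoint_left]
      intro g h1 h2
      obtain ⟨a1, a2⟩ := src_ebx h1
      obtain ⟨b1, b2⟩ := src_ebx h2
      rw [abs_le] at a1 a2 b1 b2
      have : sd (src e') (src e) ≤ 2 * j := by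
        refine sd_le_iff.2 ⟨?_, ?_⟩ <;> simp only [src] <;> rw [abs_le] <;> omega
      omega
    have d2 : Disjoint (ebx e j) (blk (src e) k \ blk (src e) (2 * s)) :=
      Finset.disjoint_sdiff.mono_left s1
    have d3 : Disjoint (ebx e' j) (blk (src e) k \ blk (src e) (2 * s)) :=
      Finset.disjoint_sdiff.mono_left s2
    have u1 : ebx e j ⊆ D.edges := (s1.trans (blk_mono' _ hsk)).trans hblk
    have u2 : ebx e' j ⊆ D.edges := (s2.trans (blk_mono' _ hsk)).trans hblk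
    have u3 : blk (src e) k \ blk (src e) (2 * s) ⊆ D.edges :=
      Finset.sdiff_subset.trans hblk
    refine (hred (fun F => A4e j e (↑F : Set Edg) ∧ (A4e j e' (↑F : Set Edg) ∧
      A4a (src e) (2 * s) k (↑F : Set Edg))) ?_).trans ?_
    · intro F hF hnz
      obtain ⟨G, hG, hj'⟩ := hE F hF hnz
      obtain ⟨G', hG', hj''⟩ := hE' F hF hnz
      refine ⟨?_, ?_, ?_⟩
      · exact (A4e_local (transfer hG n1)).1 (hj' j hj1 hjk).1
      · exact (A4e_local (transfer hG' n2)).1 (hj'' j hj1 hjk)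
      · exact (A4a_local (transfer hG n3)).1 ((hj' k (by omega) le_rfl).2 (2 * s) (by omega) hsk)
    · have l1 : ∀ F : Finset Edg, F ⊆ D.edges → (A4e j e (↑F : Set Edg) ↔
          A4e j e (↑(F ∩ ebx e j) : Set Edg)) := fun F _ => A4e_local (by
        rw [Finset.coe_inter, Set.inter_assoc, Set.inter_self])
      have l2 : ∀ F : Finset Edg, F ⊆ D.edges → (A4e j e' (↑F : Set Edg) ↔
          A4e j e' (↑(F ∩ ebx e' j) : Set Edg)) := fun F _ => A4e_local (by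
        rw [Finset.coe_inter, Set.inter_assoc, Set.inter_self])
      have l3 : ∀ F : Finset Edg, F ⊆ D.edges → (A4a (src e) (2 * s) k (↑F : Set Edg) ↔
          A4a (src e) (2 * s) k (↑(F ∩ (blk (src e) k \ blk (src e) (2 * s))) : Set Edg)) :=
        fun F _ => A4a_local (by
          rw [Finset.coe_inter, Set.inter_assoc, Set.inter_self])
      have l23 : ∀ F : Finset Edg, F ⊆ D.edges → ((A4e j e' (↑F : Set Edg) ∧
          A4a (src e) (2 * s) k (↑F : Set Edg)) ↔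
          (A4e j e' (↑(F ∩ (ebx e' j ∪ (blk (src e) k \ blk (src e) (2 * s)))) : Set Edg) ∧
          A4a (src e) (2 * s) k
            (↑(F ∩ (ebx e' j ∪ (blk (src e) k \ blk (src e) (2 * s)))) : Set Edg))) := by
        intro F _
        refine and_congr (A4e_local ?_) (A4a_local ?_)
        · rw [Finset.coe_inter, Set.inter_assoc, Finset.coe_union,
            Set.inter_eq_self_of_subset_right (Set.subset_union_left)]
        · rw [Finset.coe_inter, Set.inter_assoc, Finset.coe_union,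
            Set.inter_eq_self_of_subset_right (Set.subset_union_right)]
      have i1 : Pr hp D.edges (fun F => A4e j e (↑F : Set Edg) ∧ (A4e j e' (↑F : Set Edg) ∧
          A4a (src e) (2 * s) k (↑F : Set Edg))) =
          Pr hp D.edges (fun F => A4e j e (↑F : Set Edg)) *
            Pr hp D.edges (fun F => A4e j e' (↑F : Set Edg) ∧
              A4a (src e) (2 * s) k (↑F : Set Edg)) :=
        Pr_indep u1 (Finset.union_subset u2 u3) (Finset.disjoint_union_right.2 ⟨d1, d2⟩) l1 l23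
      have i2 : Pr hp D.edges (fun F => A4e j e' (↑F : Set Edg) ∧
              A4a (src e) (2 * s) k (↑F : Set Edg)) =
          Pr hp D.edges (fun F => A4e j e' (↑F : Set Edg)) *
            Pr hp D.edges (fun F => A4a (src e) (2 * s) k (↑F : Set Edg)) :=
        Pr_indep u2 u3 d3 l2 l3
      have p1 : Pr hp D.edges (fun F => A4e j e (↑F : Set Edg)) ≤ C4 * (j:ℝ) ^ (-(5/4) : ℝ) :=
        (pr_A4e (q := 1 / 2) (by norm_num) (by norm_num) u1).trans (h4 j hj1)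
      have p2 : Pr hp D.edges (fun F => A4e j e' (↑F : Set Edg)) ≤ C4 * (j:ℝ) ^ (-(5/4) : ℝ) :=
        (pr_A4e (q := 1 / 2) (by norm_num) (by norm_num) u2).trans (h4 j hj1)
      have p3 : Pr hp D.edges (fun F => A4a (src e) (2 * s) k (↑F : Set Edg)) ≤
          CA * (((2 * s : ℕ) : ℝ) / k) ^ (5 / 4 : ℝ) :=
        hA (src e) (2 * s) k (by omega) hsk D.edges hblk
      have q1 : (j:ℝ) ^ (-(5/4) : ℝ) ≤ 8 ^ (5/4 : ℝ) * (s : ℝ) ^ (-(5/4) : ℝ) := by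
        have r1 : (s : ℝ) / 8 ≤ j := by
          have : (s : ℝ) ≤ 8 * j := by exact_mod_cast hsj
          linarith
        have r2 : (j:ℝ) ^ (-(5/4) : ℝ) ≤ ((s : ℝ) / 8) ^ (-(5/4) : ℝ) :=
          Real.rpow_le_rpow_of_nonpos (by positivity) r1 (by norm_num)
        refine r2.trans (le_of_eq ?_)
        rw [Real.div_rpow hsp.le (by norm_num), Real.rpow_neg (by norm_num : (0:ℝ) ≤ 8),
          div_inv_eq_mul, mul_comm]
      have q3 : (((2 * s : ℕ) : ℝ) / k) ^ (5 / 4 : ℝ) =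
          2 ^ (5/4 : ℝ) * ((s : ℝ) ^ (5/4 : ℝ) * (k : ℝ) ^ (-(5/4) : ℝ)) := by
        rw [Real.div_rpow (by positivity) hk0.le, Real.rpow_neg hk0.le, div_eq_mul_inv]
        push_cast
        rw [Real.mul_rpow (by norm_num) hsp.le]
        ring
      have q4 : (s : ℝ) ^ (-(5/4) : ℝ) ≤ 2 ^ (5/4 : ℝ) * ((s : ℝ) + 1) ^ (-(5/4) : ℝ) := by
        have r1 : ((s : ℝ) + 1) / 2 ≤ s := by
          have : (1 : ℝ) ≤ s := by
            have : 1 ≤ s := by omega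
            exact_mod_cast this
          linarith
        have r2 : (s : ℝ) ^ (-(5/4) : ℝ) ≤ (((s : ℝ) + 1) / 2) ^ (-(5/4) : ℝ) :=
          Real.rpow_le_rpow_of_nonpos (by positivity) r1 (by norm_num)
        refine r2.trans (le_of_eq ?_)
        rw [Real.div_rpow hs0.le (by norm_num), Real.rpow_neg (by norm_num : (0:ℝ) ≤ 2),
          div_inv_eq_mul, mul_comm]
      have hnn1 : 0 ≤ Pr hp D.edges (fun F => A4e j e' (↑F : Set Edg)) := Pr_nonneg hok _ _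
      have hnn2 : 0 ≤ Pr hp D.edges (fun F => A4a (src e) (2 * s) k (↑F : Set Edg)) :=
        Pr_nonneg hok _ _
      have big : Pr hp D.edges (fun F => A4e j e (↑F : Set Edg)) *
          (Pr hp D.edges (fun F => A4e j e' (↑F : Set Edg)) *
            Pr hp D.edges (fun F => A4a (src e) (2 * s) k (↑F : Set Edg))) ≤
          (C4 * (8 ^ (5/4 : ℝ) * (s : ℝ) ^ (-(5/4) : ℝ))) *
            ((C4 * (8 ^ (5/4 : ℝ) * (s : ℝ) ^ (-(5/4) : ℝ))) *
              (CA * (2 ^ (5/4 : ℝ) * ((s : ℝ) ^ (5/4 : ℝ) * (k : ℝ) ^ (-(5/4) : ℝ))))) := by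
        have t1 := p1.trans (mul_le_mul_of_nonneg_left q1 hC4.le)
        have t2 := p2.trans (mul_le_mul_of_nonneg_left q1 hC4.le)
        rw [q3] at p3
        exact mul_le_mul t1 (mul_le_mul t2 p3 hnn2 (by positivity)) (by positivity) (by positivity)
      have e8 : (8 : ℝ) ^ (5/2 : ℝ) = 8 ^ (5/4 : ℝ) * 8 ^ (5/4 : ℝ) := by
        rw [← Real.rpow_add (by norm_num)]
        norm_num
      have es : (s : ℝ) ^ (-(5/4) : ℝ) * (s : ℝ) ^ (5/4 : ℝ) = 1 := by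
        rw [← Real.rpow_add hsp]
        norm_num
      have fin1 : (C4 * (8 ^ (5/4 : ℝ) * (s : ℝ) ^ (-(5/4) : ℝ))) *
            ((C4 * (8 ^ (5/4 : ℝ) * (s : ℝ) ^ (-(5/4) : ℝ))) *
              (CA * (2 ^ (5/4 : ℝ) * ((s : ℝ) ^ (5/4 : ℝ) * (k : ℝ) ^ (-(5/4) : ℝ))))) =
          C4 ^ 2 * CA * (8 : ℝ) ^ (5/2 : ℝ) * 2 ^ (5/4 : ℝ) * (k : ℝ) ^ (-(5/4) : ℝ) *
            (s : ℝ) ^ (-(5/4) : ℝ) := by
        rw [e8]
        calc _ = C4 ^ 2 * CA * (8 ^ (5/4 : ℝ) * 8 ^ (5/4 : ℝ)) * 2 ^ (5/4 : ℝ) *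
              (k : ℝ) ^ (-(5/4) : ℝ) * (s : ℝ) ^ (-(5/4) : ℝ) *
              ((s : ℝ) ^ (-(5/4) : ℝ) * (s : ℝ) ^ (5/4 : ℝ)) := by ring
          _ = _ := by rw [es, mul_one]
      have fin2 : C4 ^ 2 * CA * (8 : ℝ) ^ (5/2 : ℝ) * 2 ^ (5/4 : ℝ) * (k : ℝ) ^ (-(5/4) : ℝ) *
            (s : ℝ) ^ (-(5/4) : ℝ) ≤
          (C4 ^ 2 * CA * (8 : ℝ) ^ (5/2 : ℝ) * 2 ^ (5/4 : ℝ) * 2 ^ (5/4 : ℝ)) *
            (((s : ℝ) + 1) ^ (-(5/4) : ℝ) * (k : ℝ) ^ (-(5/4) : ℝ)) := by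
        calc _ ≤ C4 ^ 2 * CA * (8 : ℝ) ^ (5/2 : ℝ) * 2 ^ (5/4 : ℝ) * (k : ℝ) ^ (-(5/4) : ℝ) *
              (2 ^ (5/4 : ℝ) * ((s : ℝ) + 1) ^ (-(5/4) : ℝ)) :=
              mul_le_mul_of_nonneg_left q4 (by positivity)
          _ = _ := by ring
      have h7 := mul_le_mul_of_nonneg_right (le_max_left
        (C4 ^ 2 * CA * (8 : ℝ) ^ (5/2 : ℝ) * 2 ^ (5/4 : ℝ) * 2 ^ (5/4 : ℝ))
        (CA * 16 ^ (5/4 : ℝ) * 16 ^ (5/4 : ℝ))) hX
      rw [i1, i2]
      linarith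

theorem core (h4 : ∃ C : ℝ, 0 < C ∧ ∀ k : ℕ, 1 ≤ k → a4 (1/2) k ≤ C * (k:ℝ) ^ (-(5/4) : ℝ))
    (hA : ∃ C : ℝ, 0 < C ∧ ∀ (c0 : ℤ × ℤ) (d k : ℕ), 1 ≤ d → d ≤ k → ∀ S : Finset Edg,
      blk c0 k ⊆ S → PQ (1/2) S (fun F => A4a c0 d k ↑F) ≤ C * ((d:ℝ) / k) ^ (5 / 4 : ℝ)) :
    S_PAR → S_JP := by
  intro hPAR R x1 x2 θ hx1 hx12 hx2 hθ
  obtain ⟨C4, hC4, h4⟩ := h4
  obtain ⟨CA, hCA, hA⟩ := hA
  obtain ⟨κ, S, δs, hκ, hS, hδs, hδs1, hshape⟩ := Rect.shape R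
  obtain ⟨K, hKe⟩ : ∃ K : ℝ, K = max (C4 ^ 2 * CA * (8 : ℝ) ^ (5/2 : ℝ) * 2 ^ (5/4 : ℝ) *
    2 ^ (5/4 : ℝ)) (CA * 16 ^ (5/4 : ℝ) * 16 ^ (5/4 : ℝ)) := ⟨_, rfl⟩
  have hK0 : 0 < K := by
    rw [hKe]
    exact lt_of_lt_of_le (by positivity) (le_max_right _ _)
  have hx : 0 < x2 - x1 + 1 := by linarith
  refine ⟨(x2 - x1 + 1) * (2 * (K * (θ / 4) ^ (-(5/4) : ℝ))), min δs (θ / 64), by positivity,
    lt_min hδs (by positivity), ?_⟩
  intro δ hδ hδ0 e e' he hbd hex hne hsd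
  have hδ1 : δ ≤ δs := hδ0.trans (min_le_left _ _)
  have hδ2 : δ ≤ θ / 64 := hδ0.trans (min_le_right _ _)
  have hδle1 : δ ≤ 1 := hδ1.trans hδs1
  have hD : (R.dm δ).Ok := (hshape δ hδ hδ1).ok
  have hth : 64 ≤ θ / δ := by
    rw [le_div_iff₀ hδ]
    linarith
  obtain ⟨s, hs⟩ : ∃ s : ℕ, (s : ℤ) = sd (src e') (src e) :=
    ⟨(sd (src e') (src e)).toNat, Int.toNat_of_nonneg (sd_nonneg' _ _)⟩
  have hsR : ((sd (src e') (src e) : ℤ) : ℝ) = s := by rw [← hs]; simp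
  rw [hsR] at hsd ⊢
  have hs8 : (s : ℝ) ≤ (θ / δ) / 8 := by
    refine hsd.trans (le_of_eq ?_)
    field_simp
  obtain ⟨k, hk⟩ : ∃ k : ℕ, k = ⌊(θ / δ) / 2⌋₊ := ⟨_, rfl⟩
  have hkle : (k : ℝ) ≤ (θ / δ) / 2 := by
    rw [hk]
    exact Nat.floor_le (by positivity)
  have hkge : (θ / δ) / 4 ≤ (k : ℝ) := by
    have := Nat.lt_floor_add_one ((θ / δ) / 2)
    rw [← hk] at this
    linarith
  have hk16 : 16 ≤ k := by
    rw [hk]
    apply Nat.le_floor
    push_cast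
    linarith
  have hsk : 2 * s ≤ k := by
    rw [hk]
    apply Nat.le_floor
    push_cast
    linarith
  have hbd1 : (k : ℤ) + s + 4 ≤ (R.dm δ).bd (src e) := by
    have : ((k : ℝ) + s + 4) ≤ ((R.dm δ).bd (src e) : ℝ) := by
      refine le_trans ?_ hbd
      linarith
    exact_mod_cast this
  have hcol : ∀ m ∈ Finset.Ioc ⌊x1 / δ⌋ ⌊x2 / δ⌋,
      Ex hp (R.dm δ).edges (fun F => |dif e' (dif e (fun G => ind (KM (R.dm δ) m G))) F|) ≤
      2 * (K * (((s : ℝ) + 1) ^ (-(5/4) : ℝ) * (k : ℝ) ^ (-(5/4) : ℝ))) := by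
    intro m hm
    rw [Finset.mem_Ioc] at hm
    have hm1 : x1 / δ < m := Int.floor_lt.1 hm.1
    have hm2 : (m : ℝ) ≤ x2 / δ := Int.le_floor.1 hm.2
    rw [hKe]
    refine column hPAR hC4 hCA h4 hA (R.dm δ) hD m ?_ ?_ e e' hne s k hs hsk hk16 hbd1 ?_
    · have a1 : ((R.dm δ).t : ℝ) < m := by
        have b1 : ((R.dm δ).t : ℝ) ≤ R.t / δ := Int.floor_le _
        have b2 : R.t / δ < x1 / δ := by
          apply div_lt_div_of_pos_right _ hδ
          exact (le_max_left _ _).trans_lt hx1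
        linarith
      have a2 : (0 : ℝ) < m := by
        have b2 : 0 < x1 / δ := div_pos ((le_max_right _ _).trans_lt hx1) hδ
        linarith
      exact max_lt (by exact_mod_cast a1) (by exact_mod_cast a2)
    · have a1 : (m : ℝ) < (⌈R.B / δ⌉ : ℝ) := by
        have b2 : x2 / δ < R.B / δ := div_lt_div_of_pos_right hx2 hδ
        have b3 : R.B / δ ≤ (⌈R.B / δ⌉ : ℝ) := Int.le_ceil _
        linarith
      have a2 : m < ⌈R.B / δ⌉ := by exact_mod_cast a1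
      show m ≤ ⌈R.B / δ⌉ - 1
      omega
    · have a1 : (((src e).1 : ℝ) + k + s + 4) ≤ m := by
        have b1 : (x1 - θ) / δ = x1 / δ - θ / δ := by ring
        rw [b1] at hex
        linarith
      exact_mod_cast a1
  have hlin : ∀ F, |dif e' (dif e (hK (R.dm δ) δ ⌊x1 / δ⌋ ⌊x2 / δ⌋)) F| ≤
      δ * ∑ m ∈ Finset.Ioc ⌊x1 / δ⌋ ⌊x2 / δ⌋,
        |dif e' (dif e (fun G => ind (KM (R.dm δ) m G))) F| := by
    intro F
    have h1 : (hK (R.dm δ) δ ⌊x1 / δ⌋ ⌊x2 / δ⌋ : Finset Edg → ℝ) = fun F => δ *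
      ∑ m ∈ Finset.Ioc ⌊x1 / δ⌋ ⌊x2 / δ⌋, ind (KM (R.dm δ) m F) := rfl
    rw [h1, dif_lin e δ _ (fun m F => ind (KM (R.dm δ) m F)),
      dif_lin e' δ _ (fun m => dif e (fun F => ind (KM (R.dm δ) m F))), abs_mul, abs_of_pos hδ]
    exact mul_le_mul_of_nonneg_left (Finset.abs_sum_le_sum_abs _ _) hδ.le
  have hok : Ok (hp : Edg → ℝ) := fun _ => ⟨by unfold hp; norm_num, by unfold hp; norm_num⟩
  refine (Ex_mono hok fun F _ => hlin F).trans ?_
  rw [Ex_mul_left, Ex_sum]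
  have hsum := Finset.sum_le_card_nsmul _ _ _ hcol
  rw [nsmul_eq_mul] at hsum
  have hcard : δ * ((Finset.Ioc ⌊x1 / δ⌋ ⌊x2 / δ⌋).card : ℝ) ≤ x2 - x1 + 1 := by
    rw [Int.card_Ioc]
    have h0 : ⌊x1 / δ⌋ ≤ ⌊x2 / δ⌋ := Int.floor_mono (div_le_div_of_nonneg_right hx12.le hδ.le)
    have h1 : (((⌊x2 / δ⌋ - ⌊x1 / δ⌋).toNat : ℕ) : ℝ) = (⌊x2 / δ⌋ : ℝ) - ⌊x1 / δ⌋ := by
      have : (((⌊x2 / δ⌋ - ⌊x1 / δ⌋).toNat : ℕ) : ℤ) = ⌊x2 / δ⌋ - ⌊x1 / δ⌋ :=
        Int.toNat_of_nonneg (by omega)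
      have h2 : ((((⌊x2 / δ⌋ - ⌊x1 / δ⌋).toNat : ℕ) : ℤ) : ℝ) = ((⌊x2 / δ⌋ - ⌊x1 / δ⌋ : ℤ) : ℝ) := by
        rw [this]
      push_cast at h2
      simpa using h2
    rw [h1]
    have h2 : (⌊x2 / δ⌋ : ℝ) ≤ x2 / δ := Int.floor_le _
    have h3 : x1 / δ - 1 < ⌊x1 / δ⌋ := Int.sub_one_lt_floor _
    have h4 : δ * ((⌊x2 / δ⌋ : ℝ) - ⌊x1 / δ⌋) ≤ δ * (x2 / δ - (x1 / δ - 1)) :=
      mul_le_mul_of_nonneg_left (by linarith) hδ.le
    have h5 : δ * (x2 / δ - (x1 / δ - 1)) = x2 - x1 + δ := by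
      field_simp
      ring
    linarith
  have hkpow : (k : ℝ) ^ (-(5/4) : ℝ) ≤ (θ / 4) ^ (-(5/4) : ℝ) * δ ^ (5/4 : ℝ) := by
    have h1 : (k : ℝ) ^ (-(5/4) : ℝ) ≤ ((θ / 4) / δ) ^ (-(5/4) : ℝ) := by
      refine Real.rpow_le_rpow_of_nonpos (by positivity) ?_ (by norm_num)
      refine le_trans (le_of_eq ?_) hkge
      ring
    refine h1.trans (le_of_eq ?_)
    rw [Real.div_rpow (by positivity) hδ.le, Real.rpow_neg hδ.le, div_inv_eq_mul]
  have hs1 : 0 ≤ ((s : ℝ) + 1) ^ (-(5/4) : ℝ) := by positivity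
  calc δ * ∑ m ∈ Finset.Ioc ⌊x1 / δ⌋ ⌊x2 / δ⌋,
        Ex hp (R.dm δ).edges (fun F => |dif e' (dif e (fun G => ind (KM (R.dm δ) m G))) F|)
      ≤ δ * (((Finset.Ioc ⌊x1 / δ⌋ ⌊x2 / δ⌋).card : ℝ) *
          (2 * (K * (((s : ℝ) + 1) ^ (-(5/4) : ℝ) * (k : ℝ) ^ (-(5/4) : ℝ))))) :=
        mul_le_mul_of_nonneg_left hsum hδ.le
    _ = (δ * ((Finset.Ioc ⌊x1 / δ⌋ ⌊x2 / δ⌋).card : ℝ)) *
          (2 * (K * (((s : ℝ) + 1) ^ (-(5/4) : ℝ) * (k : ℝ) ^ (-(5/4) : ℝ)))) := by ring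
    _ ≤ (x2 - x1 + 1) *
          (2 * (K * (((s : ℝ) + 1) ^ (-(5/4) : ℝ) * (k : ℝ) ^ (-(5/4) : ℝ)))) :=
        mul_le_mul_of_nonneg_right hcard (by positivity)
    _ ≤ (x2 - x1 + 1) * (2 * (K * (((s : ℝ) + 1) ^ (-(5/4) : ℝ) *
          ((θ / 4) ^ (-(5/4) : ℝ) * δ ^ (5/4 : ℝ))))) := by
        refine mul_le_mul_of_nonneg_left ?_ hx.le
        refine mul_le_mul_of_nonneg_left ?_ (by norm_num)
        refine mul_le_mul_of_nonneg_left ?_ hK0.le
        exact mul_le_mul_of_nonneg_left hkpow hs1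
    _ = _ := by ring

end Pool.Agent.N283.PN.JP
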